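import Pool.Agent.Q138.QZ.Int
import Pool.Agent.Q138.Met.TailM

set_option autoImplicit false

/-!
The number of integers `n ≤ Y` with a zero far from the central point.
-/

namespace Pool.Agent.Q138.QZ

open Finset Filter Topology Pool.Agent.H306R2.RZ Pool.Agent.H306R2.RG
open Pool.Agent.H463R2.RGFIN (FS mem_FS r_bd ch ch_spec)
open Pool.Agent.TH178.ZF (Reg)
open Pool.Agent.Q138.Met (card_small)

noncomputable section

/-- integers with a large square divisor -/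
theorem card_sqdiv (K Y : ℕ) (hK : 1 ≤ K) (s : Finset ℕ)
    (hs : ∀ n ∈ s, 0 < n ∧ n ≤ Y ∧ ∃ r, K < r ∧ r ^ 2 ∣ n) : (s.card : ℝ) ≤ Y / K := by
  classical
  have hsub : s ⊆ (Ioc K Y).biUnion fun r => (Ioc 0 Y).filter fun n => r ^ 2 ∣ n := by
    intro n hn
    obtain ⟨h1, h2, r, h3, h4⟩ := hs n hn
    rw [Finset.mem_biUnion]
    have h5 := Nat.le_of_dvd h1 h4
    have h6 : r ≤ r ^ 2 := Nat.le_self_pow (by norm_num) r
    exact ⟨r, Finset.mem_Ioc.2 ⟨h3, by omega⟩, Finset.mem_filter.2 ⟨Finset.mem_Ioc.2 ⟨h1, h2⟩, h4⟩⟩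
  have h1 : s.card ≤ ∑ r ∈ Ioc K Y, Y / r ^ 2 := by
    refine (Finset.card_le_card hsub).trans (Finset.card_biUnion_le.trans ?_)
    apply Finset.sum_le_sum
    intro r _
    rw [Nat.Ioc_filter_dvd_card_eq_div]
  have h2 : (s.card : ℝ) ≤ ∑ r ∈ Ioc K Y, (Y : ℝ) * (((r : ℝ) ^ 2)⁻¹) := by
    have h3 : (s.card : ℝ) ≤ ((∑ r ∈ Ioc K Y, Y / r ^ 2 : ℕ) : ℝ) := by exact_mod_cast h1
    refine h3.trans ?_
    push_cast
    apply Finset.sum_le_sum
    intro r _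
    refine Nat.cast_div_le.trans ?_
    push_cast
    rw [div_eq_mul_inv]
  refine h2.trans ?_
  rw [← Finset.mul_sum]
  rcases le_total K Y with h | h
  · have h3 := sum_Ioc_inv_sq_le_sub (α := ℝ) (k := K) (n := Y) (by omega) h
    have h4 : (0 : ℝ) ≤ (Y : ℝ)⁻¹ := by positivity
    calc (Y : ℝ) * ∑ r ∈ Ioc K Y, (((r : ℝ) ^ 2)⁻¹) ≤ Y * ((K : ℝ)⁻¹) := by
          apply mul_le_mul_of_nonneg_left _ (Nat.cast_nonneg _)
          linarith
      _ = _ := by rw [div_eq_mul_inv]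
  · rw [Finset.Ioc_eq_empty (by omega)]
    simp only [Finset.sum_empty, mul_zero]
    positivity

/-- reduction to families -/
theorem count_gen {BZ : ℕ → Prop} {BF : FD → ℕ → Prop} {E : ℝ} (hE : 0 ≤ E) {N : ℕ}
    (hred : ∀ n r m : ℕ, 1 ≤ r → 16 ≤ n → 4 * r ^ 4 ≤ n → n = r ^ 2 * m → Squarefree m → m ≠ 1 →
      BZ n →
      ∃ (φ : FD) (d : ℕ), Fam φ ∧ d ∈ SFg φ ∧ n = r ^ 2 * (φ.e.natAbs * d) ∧ BF φ d)
    (hfam : ∀ φ, Fam φ → ∀ T : ℕ, ∀ s : Finset ℕ,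
      (∀ d ∈ s, d ∈ SFg φ ∧ N ≤ d ∧ d ≤ T ∧ BF φ d) → (s.card : ℝ) ≤ E * T)
    {Y K : ℕ} (hY : 2 ^ 16 ≤ Y) (hYN : 2 * (N : ℝ) ≤ (Y : ℝ) ^ (5 / 8 : ℝ)) (hK : 1 ≤ K)
    (hKY : K ^ 16 ≤ Y) (s : Finset ℕ)
    (hs : ∀ n ∈ s, 0 < n ∧ n ≤ Y ∧ BZ n) :
    (s.card : ℝ) ≤ Y / K + (Y : ℝ) ^ (3 / 4 : ℝ) + 2 * FS.card * E * Y := by
  classical
  set t : ℝ := (Y : ℝ) ^ (1 / 16 : ℝ) with ht
  have hY0 : (0 : ℝ) ≤ Y := Nat.cast_nonneg _
  have ht16 : t ^ 16 = Y := by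
    rw [ht, ← Real.rpow_natCast, ← Real.rpow_mul hY0]
    norm_num
  have ht12 : t ^ 12 = (Y : ℝ) ^ (3 / 4 : ℝ) := by
    rw [ht, ← Real.rpow_natCast, ← Real.rpow_mul hY0]
    norm_num
  have ht0 : 0 ≤ t := by positivity
  have ht10 : t ^ 10 = (Y : ℝ) ^ (5 / 8 : ℝ) := by
    rw [ht, ← Real.rpow_natCast, ← Real.rpow_mul hY0]
    norm_num
  have ht2 : 2 ≤ t := by
    have h1 : (2 : ℝ) ^ 16 ≤ t ^ 16 := by
      rw [ht16]
      exact_mod_cast hY
    exact le_of_pow_le_pow_left₀ (by norm_num) ht0 h1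
  have htK : (K : ℝ) ≤ t := by
    have h1 : (K : ℝ) ^ 16 ≤ t ^ 16 := by
      rw [ht16]
      exact_mod_cast hKY
    exact le_of_pow_le_pow_left₀ (by norm_num) ht0 h1
  have hN0 : (0 : ℝ) ≤ N := Nat.cast_nonneg _
  have ht1 : 1 ≤ t := by linarith
  set D : FD → ℕ → Finset ℕ := fun φ r =>
    (Icc N (Y / r ^ 2)).filter (fun d => d ∈ SFg φ ∧ BF φ d) with hD
  set A := s.filter (fun n => ∃ r, K < r ∧ r ^ 2 ∣ n) with hA
  set B := s.filter (fun n : ℕ => (n : ℝ) ≤ t ^ 12) with hB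
  set U := (Icc 1 K).biUnion fun r => FS.biUnion fun φ =>
    (D φ r).image (fun d => r ^ 2 * (φ.e.natAbs * d)) with hU
  have hsub : s ⊆ (A ∪ B) ∪ U := by
    intro n hn
    obtain ⟨hn0, hnY, hb⟩ := hs n hn
    by_cases hnA : ∃ r, K < r ∧ r ^ 2 ∣ n
    · exact Finset.mem_union_left _ (Finset.mem_union_left _ (Finset.mem_filter.2 ⟨hn, hnA⟩))
    by_cases hnB : (n : ℝ) ≤ t ^ 12
    · exact Finset.mem_union_left _ (Finset.mem_union_right _ (Finset.mem_filter.2 ⟨hn, hnB⟩))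
    push Not at hnA hnB
    apply Finset.mem_union_right
    obtain ⟨m, r, hrm, hm⟩ := Nat.sq_mul_squarefree n
    have hr1 : 1 ≤ r := by
      rcases Nat.eq_zero_or_pos r with h | h
      · exfalso
        rw [h] at hrm
        simp at hrm
        omega
      · exact h
    have hrK : r ≤ K := by
      by_contra hcon
      push Not at hcon
      exact hnA r hcon ⟨m, hrm.symm⟩
    have hrt : (r : ℝ) ≤ t := le_trans (by exact_mod_cast hrK) htK
    have hr0 : (0 : ℝ) ≤ r := Nat.cast_nonneg _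
    have hr4 : 4 * r ^ 4 ≤ n := by
      have h1 : 4 * (r : ℝ) ^ 4 ≤ n := by
        have h2 : (r : ℝ) ^ 4 ≤ t ^ 4 := pow_le_pow_left₀ hr0 hrt 4
        have h3 : (4 : ℝ) ≤ t ^ 8 := by
          calc (4 : ℝ) ≤ 2 ^ 8 := by norm_num
            _ ≤ t ^ 8 := pow_le_pow_left₀ (by norm_num) ht2 8
        have h4 : (0 : ℝ) ≤ t ^ 4 := by positivity
        calc 4 * (r : ℝ) ^ 4 ≤ t ^ 8 * t ^ 4 := mul_le_mul h3 h2 (by positivity) (by positivity)
          _ = t ^ 12 := by ring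
          _ ≤ n := hnB.le
      exact_mod_cast h1
    have hm1 : m ≠ 1 := by
      rintro rfl
      have h1 : (n : ℝ) = (r : ℝ) ^ 2 := by
        rw [← hrm]
        push_cast
        ring
      have h2 : (r : ℝ) ^ 2 ≤ t ^ 2 := pow_le_pow_left₀ hr0 hrt 2
      have h3 : t ^ 2 ≤ t ^ 12 := pow_le_pow_right₀ ht1 (by norm_num)
      linarith
    have hn16 : 16 ≤ n := by
      have h1 : (16 : ℝ) ≤ n := by
        calc (16 : ℝ) ≤ 2 ^ 12 := by norm_num
          _ ≤ t ^ 12 := pow_le_pow_left₀ (by norm_num) ht2 12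
          _ ≤ n := hnB.le
      exact_mod_cast h1
    obtain ⟨φ, d, hφ, hd, hnd, hbd⟩ := hred n r m hr1 hn16 hr4 hrm.symm hm hm1 hb
    rw [hU, Finset.mem_biUnion]
    refine ⟨r, Finset.mem_Icc.2 ⟨hr1, hrK⟩, ?_⟩
    rw [Finset.mem_biUnion]
    refine ⟨φ, (mem_FS φ).2 hφ, ?_⟩
    rw [Finset.mem_image]
    refine ⟨d, ?_, hnd.symm⟩
    rw [hD]
    simp only [Finset.mem_filter, Finset.mem_Icc]
    have he := e_abs hφ
    refine ⟨⟨?_, ?_⟩, hd, hbd⟩
    · -- `N ≤ d`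
      have h1 : (n : ℝ) ≤ t ^ 2 * (2 * d) := by
        rw [hnd]
        push_cast
        have h2 : (r : ℝ) ^ 2 ≤ t ^ 2 := pow_le_pow_left₀ hr0 hrt 2
        have h3 : ((φ.e.natAbs : ℕ) : ℝ) ≤ 2 := by
          rcases he with h | h <;> rw [h] <;> norm_num
        have h4 : (0 : ℝ) ≤ d := Nat.cast_nonneg _
        have h5 : ((φ.e.natAbs : ℕ) : ℝ) * d ≤ 2 * d := mul_le_mul_of_nonneg_right h3 h4
        exact mul_le_mul h2 h5 (by positivity) (by positivity)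
      have h2 : t ^ 2 * t ^ 10 ≤ t ^ 2 * (2 * d) := by
        calc t ^ 2 * t ^ 10 = t ^ 12 := by ring
          _ ≤ (n : ℝ) := hnB.le
          _ ≤ _ := h1
      have h3 : t ^ 10 ≤ 2 * d := le_of_mul_le_mul_left h2 (by positivity)
      have h5 : (N : ℝ) ≤ d := by linarith
      exact_mod_cast h5
    · rw [Nat.le_div_iff_mul_le (by positivity)]
      have h1 : 1 ≤ φ.e.natAbs := by rcases he with h | h <;> omega
      calc d * r ^ 2 = r ^ 2 * (1 * d) := by ring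
        _ ≤ r ^ 2 * (φ.e.natAbs * d) := by gcongr
        _ = n := hnd.symm
        _ ≤ Y := hnY
  have hcA : (A.card : ℝ) ≤ Y / K := card_sqdiv K Y hK A fun n hn => by
    rw [hA, Finset.mem_filter] at hn
    exact ⟨(hs n hn.1).1, (hs n hn.1).2.1, hn.2⟩
  have hcB : (B.card : ℝ) ≤ t ^ 12 := card_small B (by positivity) fun n hn => by
    rw [hB, Finset.mem_filter] at hn
    exact ⟨(hs n hn.1).1, hn.2⟩
  have hcU : (U.card : ℝ) ≤ 2 * FS.card * E * Y := by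
    have h1 : U.card ≤ ∑ r ∈ Icc 1 K, ∑ φ ∈ FS, (D φ r).card := by
      rw [hU]
      refine Finset.card_biUnion_le.trans (Finset.sum_le_sum fun r _ => ?_)
      exact Finset.card_biUnion_le.trans (Finset.sum_le_sum fun φ _ => Finset.card_image_le)
    have h2 : (U.card : ℝ) ≤ ∑ r ∈ Icc 1 K, ∑ φ ∈ FS, ((D φ r).card : ℝ) := by
      exact_mod_cast h1
    refine h2.trans ?_
    have h3 : ∀ r ∈ Icc 1 K, ∑ φ ∈ FS, ((D φ r).card : ℝ) ≤
        (FS.card * E * Y) * (((r : ℝ) ^ 2)⁻¹) := by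
      intro r _
      have h4 : ∀ φ ∈ FS, ((D φ r).card : ℝ) ≤ E * Y * (((r : ℝ) ^ 2)⁻¹) := by
        intro φ hφ
        have h5 := hfam φ ((mem_FS φ).1 hφ) (Y / r ^ 2) (D φ r) (by
          intro d hd
          rw [hD] at hd
          simp only [Finset.mem_filter, Finset.mem_Icc] at hd
          exact ⟨hd.2.1, hd.1.1, hd.1.2, hd.2.2⟩)
        refine h5.trans ?_
        rw [mul_assoc]
        apply mul_le_mul_of_nonneg_left _ hE
        refine Nat.cast_div_le.trans ?_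
        push_cast
        rw [div_eq_mul_inv]
      refine (Finset.sum_le_sum h4).trans (le_of_eq ?_)
      rw [Finset.sum_const, nsmul_eq_mul]
      ring
    refine (Finset.sum_le_sum h3).trans ?_
    rw [← Finset.mul_sum]
    have h5 : ∑ r ∈ Icc 1 K, (((r : ℝ) ^ 2)⁻¹) ≤ 2 := by
      have h6 := sum_Ioo_inv_sq_le (α := ℝ) 0 (K + 1)
      have e : Ioo 0 (K + 1) = Icc 1 K := by
        ext x
        simp only [Finset.mem_Ioo, Finset.mem_Icc]
        omega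
      rw [e] at h6
      norm_num at h6 ⊢
      exact h6
    have h7 : (0 : ℝ) ≤ FS.card * E * Y := by positivity
    calc (FS.card * E * Y) * ∑ r ∈ Icc 1 K, (((r : ℝ) ^ 2)⁻¹) ≤ (FS.card * E * Y) * 2 := by
          exact mul_le_mul_of_nonneg_left h5 h7
      _ = _ := by ring
  have h1 := (Finset.card_le_card hsub).trans ((Finset.card_union_le _ _).trans
    (Nat.add_le_add_right (Finset.card_union_le _ _) _))
  have h2 : (s.card : ℝ) ≤ A.card + B.card + U.card := by exact_mod_cast h1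
  rw [← ht12]
  linarith

theorem two_N_le {N Y : ℕ} (hY : (2 * N + 2) ^ 16 ≤ Y) : 2 * (N : ℝ) ≤ (Y : ℝ) ^ (5 / 8 : ℝ) := by
  have hN0 : (0 : ℝ) ≤ N := Nat.cast_nonneg N
  have h1 : (2 * N + 2 : ℝ) ^ 16 ≤ Y := by exact_mod_cast hY
  calc 2 * (N : ℝ) ≤ 2 * N + 2 := by linarith
    _ ≤ (2 * N + 2 : ℝ) ^ 10 := le_self_pow₀ (by linarith) (by norm_num)
    _ = ((2 * N + 2 : ℝ) ^ 16) ^ (5 / 8 : ℝ) := by
        rw [← Real.rpow_natCast, ← Real.rpow_natCast, ← Real.rpow_mul (by positivity)]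
        norm_num
    _ ≤ _ := Real.rpow_le_rpow (by positivity) h1 (by norm_num)

/-- the number of bad integers -/
theorem count : ∃ C c a : ℝ, 0 < C ∧ 0 < c ∧ 0 < a ∧ ∃ Y0 : ℕ, ∀ Y K : ℕ, Y0 ≤ Y → 1 ≤ K →
    K ^ 16 ≤ Y → ∀ R : ℝ, 4 ≤ R → ∀ s : Finset ℕ, (∀ n ∈ s, 0 < n ∧ n ≤ Y ∧ BadZ c R n) →
    (s.card : ℝ) ≤ Y / K + (Y : ℝ) ^ (3 / 4 : ℝ) + C * Y * Real.exp (-(a * R)) := by
  obtain ⟨C, c, a, hC, hc, ha, N, hN⟩ := cnt_all
  refine ⟨2 * FS.card * C + 1, c / 2, a / 2, by positivity, by positivity, by positivity,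
    (2 * N + 2) ^ 16, fun Y K hY hK hKY R hR s hs => ?_⟩
  have h := count_gen (BZ := BadZ (c / 2) R) (BF := fun φ d => Bd φ c (R / 2) d)
    (E := C * Real.exp (-(a / 2 * R))) (by positivity) (N := N)
    (fun n r m hr _ h4 hn hm hm1 hb => bad_family (by positivity) le_rfl hr h4 hn hm hm1
      (by linarith) hb)
    (fun φ hφ T s hs => by
      have h1 := hN φ hφ T (R / 2) (by linarith) s hs
      refine h1.trans (le_of_eq ?_)
      have e : a * (R / 2) = a / 2 * R := by ring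
      rw [e]
      ring) ((Nat.pow_le_pow_left (by omega) 16).trans hY) (two_N_le hY) hK hKY s hs
  refine h.trans ?_
  have h1 : 2 * (FS.card : ℝ) * (C * Real.exp (-(a / 2 * R))) * Y ≤
      (2 * FS.card * C + 1) * Y * Real.exp (-(a / 2 * R)) := by
    have h2 : 0 ≤ (Y : ℝ) * Real.exp (-(a / 2 * R)) := by positivity
    nlinarith
  linarith

end

end Pool.Agent.Q138.QZ
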