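import Pool.Agent.TH178.ZF.Asm

set_option autoImplicit false

/-!
Real zeros of quadratic L-functions far from the central point: the number of exceptional
discriminants of a family decays exponentially.
-/

namespace Pool.Agent.Q138.QZ

open Finset Filter Topology MeasureTheory Pool.Agent.H306R2.RZ Pool.Agent.H306R2.RG
open Pool.Agent.W169.RT
open Pool.Agent.W169.QP (Nn Na Mf cnt_mono cnt_union markov)
open Pool.Agent.W469.RT.Sup (GC_neg GC_diff)
open Pool.Agent.W66L (lq one_le_lq)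
open Pool.Agent.H864R2.RGFI4G
open Pool.Agent.TH178.ZF
open Pool.Agent.H463R2.RGFIN (r_bd)

noncomputable section

/-- a zero in the region at scaled distance at least `R` from the line `Re s = 1/2` -/
def BadR (φ : FD) (c L R : ℝ) (d : ℕ) : Prop := ∃ (N : ℕ) (_ : NeZero N)
    (χ : DirichletCharacter ℂ N), χ.IsPrimitive ∧ χ ^ 2 = 1 ∧ χ ≠ 1 ∧ N = φ.r * d ∧
    (∀ n : ℕ, n ≠ 0 → χ (n : ZMod N) = ((cf φ d n : ℝ) : ℂ)) ∧
    ∃ s : ℂ, 0 < s.re ∧ s.re < 1 ∧ R ≤ |s.re - 1 / 2| * L ∧ Reg c L s ∧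
      DirichletCharacter.LFunction χ s = 0

theorem reduce' (hID : S_ID) {φ : FD} (hfam : Fam φ) (hC : CG φ) {δ : ℝ} (hδ : 0 < δ) {ρ : ℝ → ℝ}
    (hρ : RH δ ρ) {c0 : ℝ}
    (hone : ∀ (Q : ℕ) [NeZero Q] (χ : DirichletCharacter ℂ Q), χ ^ 2 = 1 →
    χ ≠ 1 → ∀ ρ : ℂ, χ.LFunction ρ = 0 → ρ.im ≠ 0 → |ρ.im| ≤ c0 / lq Q 0 →
      ρ.re ≤ 1 - c0 / lq Q 0) (hr8 : φ.r ≤ 8)
    {c cf L R r0 : ℝ} (hc0 : 0 < c0) (hc : 0 < c) (hr0 : 0 < r0)
    (hc1 : c ≤ 1) (hc2 : c ≤ cf) (hc4 : r0 + c ≤ c0 / 2)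
    (hL : 4 ≤ L) (hL1 : 100 * r0 ≤ L)
    {d : ℕ} (hd : d ∈ SFg φ) (hdL : (d : ℝ) ≤ Real.exp L) (hbad : BadR φ c L R d) :
    (∃ w : ℂ, R ≤ w.re ∧ ‖w‖ ≤ L / 2 - r0 ∧
        |w.im| ≤ Real.exp (cf * w.re) ∧ GC φ L ρ d w = 0) ∨ bad2g φ L R d := by
  have hL0 : 0 < L := by linarith
  obtain ⟨N, hNz, χ, h1, h2, h3, h4, h5, s, hs0, hs1, hRs, hreg, hz⟩ := hbad
  set cc : ℝ := ((φ.r : ℝ) * d) ^ (1 / 4 : ℝ) * g0g φ with hcc
  have hN1 : (1 : ℝ) ≤ (φ.r : ℝ) * d := by
    have h : 0 < φ.r * d := by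
      rw [← h4]
      exact Nat.pos_of_ne_zero hNz.out
    exact_mod_cast h
  have hg0 := Pool.Agent.H285R3.RG_C8G.g0g_pos φ
  have hcc0 : 0 < cc := by positivity
  have hccC : (cc : ℂ) ≠ 0 := by exact_mod_cast hcc0.ne'
  have hid : ∀ z : ℂ, LamC χ (1 / 2 + z / (L : ℂ)) = (cc : ℂ) * GC φ L ρ d z := fun z =>
    hID φ hfam δ hδ ρ hρ d hd N hNz χ h1 h2 h3 h4 h5 L hL0 z
  have hLC : (L : ℂ) ≠ 0 := by exact_mod_cast hL0.ne'
  have hzL := (lam_zero χ hs0).1 hz
  -- the point in the right half plane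
  obtain ⟨w, hw1, hw2, hw3, hw4⟩ : ∃ w : ℂ, w.re = L * |s.re - 1 / 2| ∧ |w.im| = L * |s.im| ∧
      ‖w‖ = L * ‖s - 1 / 2‖ ∧ GC φ L ρ d w = 0 := by
    have hG : GC φ L ρ d ((L : ℂ) * (s - 1 / 2)) = 0 := by
      have h6 := hid ((L : ℂ) * (s - 1 / 2))
      rw [mul_div_assoc, mul_div_cancel₀ _ hLC] at h6 <;> skip
      have h7 : (1 : ℂ) / 2 + (s - 1 / 2) = s := by ring
      rw [h7, hzL] at h6
      exact (mul_eq_zero.1 h6.symm).resolve_left hccC
    have hn : ‖(L : ℂ) * (s - 1 / 2)‖ = L * ‖s - 1 / 2‖ := by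
      rw [norm_mul, Complex.norm_real, Real.norm_of_nonneg hL0.le]
    have hr : ((L : ℂ) * (s - 1 / 2)).re = L * (s.re - 1 / 2) := by
      rw [Complex.re_ofReal_mul]
      simp
    have hi : ((L : ℂ) * (s - 1 / 2)).im = L * s.im := by
      rw [Complex.im_ofReal_mul]
      simp
    rcases le_total (1 / 2) s.re with hs | hs
    · refine ⟨(L : ℂ) * (s - 1 / 2), ?_, ?_, hn, hG⟩
      · rw [hr, abs_of_nonneg (by linarith)]
      · rw [hi, abs_mul, abs_of_pos hL0]
    · refine ⟨-((L : ℂ) * (s - 1 / 2)), ?_, ?_, ?_, ?_⟩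
      · rw [Complex.neg_re, hr, abs_of_nonpos (by linarith)]
        ring
      · rw [Complex.neg_im, abs_neg, hi, abs_mul, abs_of_pos hL0]
      · rw [norm_neg, hn]
      · rw [GC_neg, hG]
  have hwR : R ≤ w.re := by rw [hw1, mul_comm]; exact hRs
  have hwr0 : 0 ≤ w.re := by rw [hw1]; positivity
  have hwr1 : w.re ≤ L / 2 := by
    rw [hw1]
    have : |s.re - 1 / 2| ≤ 1 / 2 := abs_le.2 ⟨by linarith, by linarith⟩
    nlinarith
  -- the region
  have hreg' : |w.im| ≤ c ∨ (‖w‖ ≤ 49 / 100 * L ∧ |w.im| ≤ c * Real.exp (c * w.re)) := by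
    rcases hreg with h6 | ⟨h6, h7⟩
    · left
      rw [hw2]
      rw [le_div_iff₀ hL0] at h6
      linarith
    · right
      constructor
      · rw [hw3]
        nlinarith
      · rw [hw2, hw1]
        have e1 : c * (L * |s.re - 1 / 2|) = c * |s.re - 1 / 2| * L := by ring
        rw [e1]
        calc L * |s.im| ≤ L * (c / L * Real.exp (c * |s.re - 1 / 2| * L)) := by gcongr
          _ = _ := by field_simp
  have hce : 1 ≤ Real.exp (c * w.re) := Real.one_le_exp (by positivity)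
  have himg : |w.im| ≤ c * Real.exp (c * w.re) := by
    rcases hreg' with h6 | ⟨-, h6⟩
    · nlinarith
    · exact h6
  have himf : |w.im| ≤ Real.exp (cf * w.re) := by
    refine himg.trans ?_
    calc c * Real.exp (c * w.re) ≤ 1 * Real.exp (c * w.re) := by gcongr
      _ = Real.exp (c * w.re) := one_mul _
      _ ≤ Real.exp (cf * w.re) := by
          apply Real.exp_le_exp.2
          exact mul_le_mul_of_nonneg_right hc2 hwr0
  by_cases hn : ‖w‖ ≤ L / 2 - r0
  · left
    exact ⟨w, hwR, hn, himf, hw4⟩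
  · right
    push Not at hn
    have him : |w.im| ≤ c := by
      rcases hreg' with h6 | ⟨h6, -⟩
      · exact h6
      · exfalso
        linarith
    -- back to the L-function
    have hs' : LamC χ (1 / 2 + w / (L : ℂ)) = 0 := by rw [hid, hw4, mul_zero]
    have hre : (1 / 2 + w / (L : ℂ)).re = 1 / 2 + w.re / L := by
      rw [Complex.add_re, Complex.div_ofReal_re]
      norm_num
    have him' : (1 / 2 + w / (L : ℂ)).im = w.im / L := by
      rw [Complex.add_im, Complex.div_ofReal_im]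
      norm_num
    have hrep : 0 < (1 / 2 + w / (L : ℂ)).re := by
      rw [hre]
      positivity
    have hz' := (lam_zero χ hrep).2 hs'
    by_cases h0 : w.im = 0
    · -- a real zero
      refine ⟨w.re, hwR, hwr1, ?_⟩
      obtain ⟨hNz', χ', g1, g2, g3, g4, g5⟩ := hC.chi d hd.1 hd.2
      have hNN : N = φ.r * d := h4
      subst hNN
      have hχ : χ = χ' := by
        apply MulChar.ext'
        intro a
        have ha : a = ((a.val + φ.r * d : ℕ) : ZMod (φ.r * d)) := by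
          rw [Nat.cast_add, ZMod.natCast_self, add_zero, ZMod.natCast_zmod_val]
        have hne : a.val + φ.r * d ≠ 0 := by
          have := Nat.pos_of_ne_zero hNz.out
          omega
        rw [ha, h5 _ hne, g4 _ hne]
      have hreal : (1 / 2 + w / (L : ℂ)) = ((1 / 2 + w.re / L : ℝ) : ℂ) := by
        apply Complex.ext
        · rw [hre, Complex.ofReal_re]
        · rw [him', h0, zero_div, Complex.ofReal_im]
      have h6 := g5 (1 / 2 + w.re / L) (by positivity)
      rw [← hreal] at h6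
      have h7 : DirichletCharacter.LFunction χ' (1 / 2 + w / (L : ℂ)) = 0 := by
        rw [← hχ]
        exact hz'
      rw [h7] at h6
      exact_mod_cast h6.symm
    · -- a nonreal zero close to `1`
      exfalso
      have hl1 := one_le_lq N 0
      have hl : lq N 0 ≤ 2 * L := by
        unfold lq Pool.Agent.W66.ell
        rw [abs_zero, zero_add]
        have hd0 : (0 : ℝ) < d := by exact_mod_cast hC.dpos d hd.1
        have h6 : Real.log N ≤ L + Real.log 8 := by
          rw [← Real.log_exp L, ← Real.log_mul (Real.exp_pos L).ne' (by norm_num)]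
          apply Real.log_le_log
          · rw [h4]; push_cast; linarith
          · rw [h4]
            push_cast
            have : (φ.r : ℝ) ≤ 8 := by exact_mod_cast hr8
            nlinarith
        have h7 : Real.log 8 + Real.log 3 ≤ 4 := by
          rw [← Real.log_mul (by norm_num) (by norm_num)]
          rw [Real.log_le_iff_le_exp (by norm_num)]
          have e1 : (2.7 : ℝ) ≤ Real.exp 1 := by
            have := Real.exp_one_gt_d9
            linarith
          calc (8 * 3 : ℝ) ≤ 2.7 ^ 4 := by norm_num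
            _ ≤ Real.exp 1 ^ 4 := pow_le_pow_left₀ (by norm_num) e1 4
            _ = Real.exp 4 := by rw [← Real.exp_nat_mul]; norm_num
        linarith
      have hl0 : 0 < lq N 0 := by linarith
      have hq : c0 / (2 * L) ≤ c0 / lq N 0 := div_le_div_of_nonneg_left hc0.le hl0 hl
      have hk := hone N χ h2 h3 _ hz' (by
        rw [him']
        exact div_ne_zero h0 hL0.ne') (by
        rw [him', abs_div, abs_of_pos hL0]
        refine le_trans ?_ hq
        rw [div_le_div_iff₀ hL0 (by positivity)]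
        nlinarith)
      rw [hre] at hk
      have hwn : ‖w‖ ≤ w.re + |w.im| := by
        have := Complex.norm_le_abs_re_add_abs_im w
        rwa [abs_of_nonneg hwr0] at this
      have h8 : L / 2 - (r0 + c) < w.re := by linarith
      have h9 : (L / 2 - (r0 + c)) / L < w.re / L := div_lt_div_of_pos_right h8 hL0
      have e1 : (L / 2 - (r0 + c)) / L = 1 / 2 - (r0 + c) / L := by field_simp
      have h10 : (r0 + c) / L ≤ c0 / (2 * L) := by
        rw [div_le_div_iff₀ hL0 (by positivity)]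
        nlinarith
      rw [e1] at h9
      linarith

/-- exponential decay in one family -/
theorem tail (φ : FD) (hfam : Fam φ) : ∃ C c a : ℝ, 0 < C ∧ 0 < c ∧ 0 < a ∧ ∃ N : ℕ,
    ∀ X : ℕ, N ≤ X → ∀ R : ℝ, 2 ≤ R → ∀ s : Finset ℕ,
      (∀ d ∈ s, d ∈ SFg φ ∧ X ≤ 2 * d ∧ d ≤ X ∧ BadR φ c (Real.log X) R d) →
      (s.card : ℝ) ≤ C * X * Real.exp (-(a * R)) := by
  have hCG := Pool.Agent.W723.RT.cg
  have hKC := Pool.Agent.W215.RT.kc
  have hID := Pool.Agent.W723.RT.id_of
  have hφ := LnkA.FGF φ hfam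
  have hC := LnkC.CGF φ hfam
  have hr8 := (r_bd hfam).2
  have hTR := LnkB.TRG φ (LnkA.FGF φ hfam) (LnkC.CGF φ hfam)
  obtain ⟨F, hF, hF0, hF1, -⟩ := Pool.Agent.H692R2.RZ2FI3.FI3 (1 / 2) (by norm_num) (by norm_num)
  have hA : Adm2 (1 / 2 + 3 * (1 / 100000)) (4995 / 10000) := by
    constructor <;> norm_num
  obtain ⟨C, c0, L1, hCp, hc0, hTR⟩ := hTR F hF hF0 (1 / 100000) (4995 / 10000) (by norm_num) hA
  obtain ⟨cz, hcz, hone⟩ := near_one
  set r0 : ℝ := min (1 / 2) (cz / 4) with hr0d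
  have hr0 : 0 < r0 := lt_min (by norm_num) (by positivity)
  have hr1 : r0 ≤ 1 / 2 := min_le_left _ _
  have hr2 : r0 ≤ cz / 4 := min_le_right _ _
  obtain ⟨W1, -, -⟩ := Pool.Agent.H692R2.RZ2W0.W0
  obtain ⟨ρ, hρ⟩ := W1 (1 / 100000) (by norm_num)
  obtain ⟨Cf, cf, cf2, L3, hCf, hcf, hcf1, hcf2, hfar⟩ := far hCG hKC hID φ hfam hφ hC F hF hF0
    (1 / 100000) (4995 / 10000) (by norm_num) (by norm_num) hA ρ hρ r0 hr0 hr1
  set c4 : ℝ := min (min 1 cf) (cz / 4) with hc4
  have hc40 : 0 < c4 := lt_min (lt_min one_pos hcf) (by positivity)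
  have k1 : c4 ≤ 1 := (min_le_left _ _).trans (min_le_left _ _)
  have k2 : c4 ≤ cf := (min_le_left _ _).trans (min_le_right _ _)
  have k3 : c4 ≤ cz / 4 := min_le_right _ _
  refine ⟨C + Cf, c4, min c0 cf2, by positivity, hc40, lt_min hc0 hcf2, ?_⟩
  have hlog : Tendsto (fun X : ℕ => Real.log X) atTop atTop :=
    Real.tendsto_log_atTop.comp tendsto_natCast_atTop_atTop
  have hev := (((hlog.eventually (eventually_ge_atTop L1)).and
    (hlog.eventually (eventually_ge_atTop L3))).and ((hlog.eventually (eventually_ge_atTop 4)).and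
    (hlog.eventually (eventually_ge_atTop (100 * r0))))).and (eventually_ge_atTop 2)
  rw [Filter.eventually_atTop] at hev
  obtain ⟨N, hN⟩ := hev
  refine ⟨N, ?_⟩
  intro X hX R hR s hs
  obtain ⟨⟨⟨g1, g3⟩, g5, g6⟩, g7⟩ := hN X hX
  have hXr : (2 : ℝ) ≤ X := by exact_mod_cast g7
  have hXp : (0 : ℝ) < X := by linarith
  by_cases hRL : R ≤ Real.log X / 2
  · have p2 := hTR (Real.log X) g1 R (by linarith) hRL
    have p3 := hfar (Real.log X) g3 R hR
    set B2 : Set ℕ := {d | ∃ w : ℂ, R ≤ w.re ∧ ‖w‖ ≤ Real.log X / 2 - r0 ∧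
          |w.im| ≤ Real.exp (cf * w.re) ∧ GC φ (Real.log X) ρ d w = 0} with hB2
    set B3 : Set ℕ := {d | bad2g φ (Real.log X) R d} with hB3
    have p1 := card_le hF hF0 hXp (Real.exp_log hXp) hF1 ((SFg φ ∩ B2) ∪ (SFg φ ∩ B3)) s (by
      intro d hd
      obtain ⟨h1, h2, h3, h4⟩ := hs d hd
      have h2' : (X : ℝ) ≤ 2 * d := by exact_mod_cast h2
      have h3' : (d : ℝ) ≤ X := by exact_mod_cast h3
      refine ⟨?_, by linarith, h3'⟩
      rcases reduce' hID hfam hC (by norm_num) hρ hone hr8 hcz hc40 hr0 k1 k2 (by linarith) g5 g6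
        h1 (by rw [Real.exp_log hXp]; exact h3') h4 with h6 | h6
      · exact Or.inl ⟨h1, h6⟩
      · exact Or.inr ⟨h1, h6⟩)
    have p5 := cnt_union hF hF0 (Real.log X) (SFg φ ∩ B2) (SFg φ ∩ B3)
    have hR0 : 0 ≤ R := by linarith
    have q1 : Real.exp (-(c0 * R)) ≤ Real.exp (-(min c0 cf2 * R)) := by
      apply Real.exp_le_exp.2
      have := mul_le_mul_of_nonneg_right (min_le_left c0 cf2) hR0
      linarith
    have q2 : Real.exp (-(cf2 * R)) ≤ Real.exp (-(min c0 cf2 * R)) := by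
      apply Real.exp_le_exp.2
      have := mul_le_mul_of_nonneg_right (min_le_right c0 cf2) hR0
      linarith
    calc (s.card : ℝ) ≤ X * cnt F (Real.log X) ((SFg φ ∩ B2) ∪ (SFg φ ∩ B3)) := p1
      _ ≤ X * (Cf * Real.exp (-(cf2 * R)) + C * Real.exp (-(c0 * R))) := by
          apply mul_le_mul_of_nonneg_left _ hXp.le
          linarith
      _ ≤ X * (Cf * Real.exp (-(min c0 cf2 * R)) + C * Real.exp (-(min c0 cf2 * R))) := by
          gcongr
      _ = _ := by ring
  · have he : s = ∅ := by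
      rw [Finset.eq_empty_iff_forall_notMem]
      intro d hd
      obtain ⟨-, -, -, N', _, χ, -, -, -, -, -, z, hz0, hz1, hz2, -⟩ := hs d hd
      apply hRL
      have h1 : |z.re - 1 / 2| ≤ 1 / 2 := abs_le.2 ⟨by linarith, by linarith⟩
      have h2 : 0 ≤ Real.log X := by linarith
      have h3 := mul_le_mul_of_nonneg_right h1 h2
      linarith
    rw [he]
    simp only [Finset.card_empty, Nat.cast_zero]
    positivity

end

end Pool.Agent.Q138.QZ
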