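import Pool.Agent.Q138.QZ.Far
import Pool.Agent.TH560.QT.Link

set_option autoImplicit false

/-!
Real zeros of quadratic L-functions far from the central point: the integers `n ≤ Y` such that a
character attached to `n` or to `-n` has such a zero.
-/

namespace Pool.Agent.Q138.QZ

open Finset Filter Topology Pool.Agent.H306R2.RZ Pool.Agent.H306R2.RG
open Pool.Agent.H463R2.RGFIN (FS mem_FS r_bd ch ch_spec)
open Pool.Agent.TH178.ZF (Reg)
open Pool.Agent.TH560.QT (Attached att_unique att_ch fam_of fam_ne_one)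
open Pool.Agent.W161.LF (hCGF)

noncomputable section

/-- change of scale -/
theorem reg_scale {c c' L L' : ℝ} (hL : 0 < L) (hL' : 0 < L') (h1 : L ≤ 2 * L') (h2 : L' ≤ 2 * L)
    (hc' : 0 < c') (hc : c' ≤ c / 2) {s : ℂ} (h : Reg c' L' s) : Reg c L s := by
  have hc0 : 0 < c := by linarith
  have h3 : c' / L' ≤ c / L := by
    rw [div_le_div_iff₀ hL' hL]
    nlinarith
  rcases h with h | ⟨h4, h5⟩
  · exact Or.inl (h.trans h3)
  · right
    refine ⟨h4, h5.trans ?_⟩
    have h6 : c' * |s.re - 1 / 2| * L' ≤ c * |s.re - 1 / 2| * L := by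
      have h7 : c' * L' ≤ c * L := by nlinarith
      have := mul_le_mul_of_nonneg_right h7 (abs_nonneg (s.re - 1 / 2))
      nlinarith
    exact mul_le_mul h3 (Real.exp_le_exp.2 h6) (Real.exp_pos _).le (by positivity)

theorem reg_le {c c' L : ℝ} (hL : 0 < L) (hc' : 0 < c') (hc : c' ≤ c) {s : ℂ} (h : Reg c' L s) :
    Reg c L s := by
  have hc0 : 0 < c := by linarith
  have h3 : c' / L ≤ c / L := div_le_div_of_nonneg_right hc hL.le
  rcases h with h | ⟨h4, h5⟩
  · exact Or.inl (h.trans h3)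
  · right
    refine ⟨h4, h5.trans ?_⟩
    have h6 : c' * |s.re - 1 / 2| * L ≤ c * |s.re - 1 / 2| * L := by gcongr
    exact mul_le_mul h3 (Real.exp_le_exp.2 h6) (Real.exp_pos _).le (by positivity)

/-- the dyadic scale of `d` -/
def sc (d : ℕ) : ℝ := Real.log ((2 ^ (Nat.log 2 d + 1) : ℕ) : ℝ)

lemma sc_pos (d : ℕ) : 0 < sc d := by
  unfold sc
  apply Real.log_pos
  push_cast
  have h := pow_le_pow_right₀ (by norm_num : (1 : ℝ) ≤ 2) (Nat.le_add_left 1 (Nat.log 2 d))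
  linarith

/-- a zero in the region at the scale of `d` -/
def Bd (φ : FD) (c R : ℝ) (d : ℕ) : Prop := BadR φ c (sc d) R d

theorem Bd_mono {φ : FD} {c c' R : ℝ} (hc' : 0 < c') (hc : c' ≤ c) {d : ℕ} (h : Bd φ c' R d) :
    Bd φ c R d := by
  obtain ⟨N, hN, χ, h1, h2, h3, h4, h5, s, h6, h7, h8, h9, h10⟩ := h
  exact ⟨N, hN, χ, h1, h2, h3, h4, h5, s, h6, h7, h8, reg_le (sc_pos d) hc' hc h9, h10⟩

/-- dyadic decomposition -/
theorem dyadic {P : ℕ → Prop} {E : ℝ} (hE : 0 ≤ E)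
    (h : ∀ j : ℕ, ∀ s : Finset ℕ, (∀ d ∈ s, P d ∧ 2 ^ j ≤ d ∧ d < 2 ^ (j + 1) ∧ Nat.log 2 d = j) →
      (s.card : ℝ) ≤ E * (2 : ℝ) ^ j) (T : ℕ) (s : Finset ℕ)
    (hs : ∀ d ∈ s, 0 < d ∧ d ≤ T ∧ P d) : (s.card : ℝ) ≤ 2 * E * T := by
  classical
  rcases s.eq_empty_or_nonempty with rfl | hne
  · simp only [Finset.card_empty, Nat.cast_zero]
    positivity
  have hT : T ≠ 0 := by
    obtain ⟨d, hd⟩ := hne
    have := hs d hd
    omega
  have hmaps : ∀ d ∈ s, Nat.log 2 d ∈ Finset.range (Nat.log 2 T + 1) := by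
    intro d hd
    have h := hs d hd
    rw [Finset.mem_range]
    have := Nat.log_mono_right (b := 2) h.2.1
    omega
  have hcard := Finset.card_eq_sum_card_fiberwise hmaps
  have h1 : ∀ j ∈ Finset.range (Nat.log 2 T + 1),
      ((s.filter fun d => Nat.log 2 d = j).card : ℝ) ≤ E * (2 : ℝ) ^ j := by
    intro j _
    apply h j
    intro d hd
    rw [Finset.mem_filter] at hd
    have h2 := hs d hd.1
    have h3 := Nat.pow_log_le_self 2 (x := d) (by omega)
    have h4 := Nat.lt_pow_succ_log_self (b := 2) (by norm_num) d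
    rw [hd.2] at h3 h4
    exact ⟨h2.2.2, h3, h4, hd.2⟩
  rw [hcard]
  push_cast
  refine (Finset.sum_le_sum h1).trans ?_
  rw [← Finset.mul_sum]
  have h4 : ∑ j ∈ Finset.range (Nat.log 2 T + 1), (2 : ℝ) ^ j ≤ 2 ^ (Nat.log 2 T + 1) := by
    rw [geom_sum_eq (by norm_num)]
    norm_num
  have h5 : (2 : ℝ) ^ (Nat.log 2 T) ≤ T := by
    exact_mod_cast Nat.pow_log_le_self 2 hT
  calc E * ∑ j ∈ Finset.range (Nat.log 2 T + 1), (2 : ℝ) ^ j ≤ E * 2 ^ (Nat.log 2 T + 1) := by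
        gcongr
    _ = 2 * E * 2 ^ (Nat.log 2 T) := by ring
    _ ≤ _ := by gcongr

/-- all scales in one family -/
theorem cnt_fam (φ : FD) (hφ : Fam φ) : ∃ C c a : ℝ, 0 < C ∧ 0 < c ∧ 0 < a ∧ ∃ N : ℕ,
    ∀ T : ℕ, ∀ R : ℝ, 2 ≤ R → ∀ s : Finset ℕ,
      (∀ d ∈ s, d ∈ SFg φ ∧ N ≤ d ∧ d ≤ T ∧ Bd φ c R d) →
      (s.card : ℝ) ≤ C * T * Real.exp (-(a * R)) := by
  classical
  obtain ⟨C, c, a, hC, hc, ha, N, hN⟩ := tail φ hφ
  refine ⟨4 * C, c, a, by positivity, hc, ha, N + 1, fun T R hR s hs => ?_⟩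
  have key := dyadic (P := fun d => d ∈ SFg φ ∧ N + 1 ≤ d ∧ Bd φ c R d)
    (E := 2 * C * Real.exp (-(a * R))) (by positivity) (fun j s' hs' => by
      rcases s'.eq_empty_or_nonempty with h0 | h0
      · rw [h0]
        simp only [Finset.card_empty, Nat.cast_zero]
        positivity
      · have hNX : N ≤ 2 ^ (j + 1) := by
          obtain ⟨d, hd⟩ := h0
          have h2 := hs' d hd
          omega
        have h5 := hN (2 ^ (j + 1)) hNX R hR s' (by
          intro d hd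
          obtain ⟨⟨g1, g2, g3⟩, g4, g5, g6⟩ := hs' d hd
          refine ⟨g1, ?_, g5.le, ?_⟩
          · rw [pow_succ]
            omega
          · unfold Bd sc at g3
            rw [g6] at g3
            exact g3)
        push_cast at h5
        refine h5.trans (le_of_eq ?_)
        ring) T s (fun d hd => by
      obtain ⟨g1, g2, g3, g4⟩ := hs d hd
      exact ⟨by omega, g3, g1, g2, g4⟩)
  refine key.trans (le_of_eq ?_)
  ring

/-- all families -/
theorem cnt_all : ∃ C c a : ℝ, 0 < C ∧ 0 < c ∧ 0 < a ∧ ∃ N : ℕ,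
    ∀ φ, Fam φ → ∀ T : ℕ, ∀ R : ℝ, 2 ≤ R → ∀ s : Finset ℕ,
      (∀ d ∈ s, d ∈ SFg φ ∧ N ≤ d ∧ d ≤ T ∧ Bd φ c R d) →
      (s.card : ℝ) ≤ C * T * Real.exp (-(a * R)) := by
  classical
  have key : ∀ S : Finset FD, ∃ C c a : ℝ, 0 < C ∧ 0 < c ∧ 0 < a ∧ ∃ N : ℕ,
      ∀ φ ∈ S, Fam φ → ∀ T : ℕ, ∀ R : ℝ, 2 ≤ R → ∀ s : Finset ℕ,
      (∀ d ∈ s, d ∈ SFg φ ∧ N ≤ d ∧ d ≤ T ∧ Bd φ c R d) →
      (s.card : ℝ) ≤ C * T * Real.exp (-(a * R)) := by
    intro S
    induction S using Finset.induction_on with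
    | empty => exact ⟨1, 1, 1, one_pos, one_pos, one_pos, 0, fun φ h => absurd h (notMem_empty φ)⟩
    | insert b S _ ih =>
      obtain ⟨C1, c1, a1, hC1, hc1, ha1, N1, h1⟩ := ih
      by_cases hb : Fam b
      · obtain ⟨C2, c2, a2, hC2, hc2, ha2, N2, h2⟩ := cnt_fam b hb
        refine ⟨max C1 C2, min c1 c2, min a1 a2, lt_max_of_lt_left hC1, lt_min hc1 hc2,
          lt_min ha1 ha2, max N1 N2, ?_⟩
        intro φ hφ hfam T R hR s hs
        have hR0 : 0 ≤ R := by linarith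
        rw [Finset.mem_insert] at hφ
        rcases hφ with rfl | hφ
        · refine (h2 T R hR s fun d hd => ?_).trans ?_
          · obtain ⟨g1, g2, g3, g4⟩ := hs d hd
            exact ⟨g1, (le_max_right _ _).trans g2, g3,
              Bd_mono (lt_min hc1 hc2) (min_le_right _ _) g4⟩
          · have e1 : Real.exp (-(a2 * R)) ≤ Real.exp (-(min a1 a2 * R)) := by
              apply Real.exp_le_exp.2
              have := mul_le_mul_of_nonneg_right (min_le_right a1 a2) hR0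
              linarith
            have e2 : C2 ≤ max C1 C2 := le_max_right _ _
            gcongr
        · refine (h1 φ hφ hfam T R hR s fun d hd => ?_).trans ?_
          · obtain ⟨g1, g2, g3, g4⟩ := hs d hd
            exact ⟨g1, (le_max_left _ _).trans g2, g3,
              Bd_mono (lt_min hc1 hc2) (min_le_left _ _) g4⟩
          · have e1 : Real.exp (-(a1 * R)) ≤ Real.exp (-(min a1 a2 * R)) := by
              apply Real.exp_le_exp.2
              have := mul_le_mul_of_nonneg_right (min_le_left a1 a2) hR0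
              linarith
            have e2 : C1 ≤ max C1 C2 := le_max_left _ _
            gcongr
      · refine ⟨C1, c1, a1, hC1, hc1, ha1, N1, fun φ hφ hfam => ?_⟩
        rw [Finset.mem_insert] at hφ
        rcases hφ with rfl | hφ
        · exact absurd hfam hb
        · exact h1 φ hφ hfam
  obtain ⟨C, c, a, hC, hc, ha, N, h⟩ := key FS
  exact ⟨C, c, a, hC, hc, ha, N, fun φ hφ => h φ ((mem_FS φ).2 hφ) hφ⟩

/-- a character attached to `n` or to `-n` has a zero in the region at scaled distance `≥ R` -/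
def BadZ (c R : ℝ) (n : ℕ) : Prop := ∃ σ : ℤ, (σ = 1 ∨ σ = -1) ∧
  ∃ (N : ℕ) (_ : NeZero N) (χ : DirichletCharacter ℂ N), Attached (σ * (n : ℤ)) χ ∧
    ∃ s : ℂ, 0 < s.re ∧ s.re < 1 ∧ R ≤ |s.re - 1 / 2| * Real.log n ∧ Reg c (Real.log n) s ∧
      DirichletCharacter.LFunction χ s = 0

/-- removing a square factor -/
theorem attached_sq {n m : ℤ} {r : ℕ} (hr : r ≠ 0) (h : n = (r : ℤ) ^ 2 * m) {N : ℕ}
    {χ : DirichletCharacter ℂ N} (hχ : Attached n χ) : Attached m χ := by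
  obtain ⟨B, hB⟩ := hχ
  refine ⟨max B (r + 1), fun p hp hpB => ?_⟩
  have h1 : B ≤ p := (le_max_left _ _).trans hpB
  have h2 : r + 1 ≤ p := (le_max_right _ _).trans hpB
  rw [hB p hp h1, h, jacobiSym.mul_left, jacobiSym.pow_left, jacobiSym.sq_one, one_mul]
  have hc : Nat.Coprime r p := by
    rw [Nat.coprime_comm, hp.coprime_iff_not_dvd]
    intro hd
    have := Nat.le_of_dvd (Nat.pos_of_ne_zero hr) hd
    omega
  rw [Int.gcd_natCast_natCast]
  exact hc

/-- the zeros in the strip do not depend on the character of the class -/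
theorem zero_transfer {φ : FD} (hφ : Fam φ) {d : ℕ} (hd : d ∈ SFg φ) {N : ℕ} [NeZero N]
    {χ : DirichletCharacter ℂ N} (hχ : Attached (φ.e * (d : ℤ)) χ) {s : ℂ} (hs0 : 0 < s.re)
    (hs1 : s.re < 1) (hz : DirichletCharacter.LFunction χ s = 0) [NeZero (ch φ d).1] :
    DirichletCharacter.LFunction (ch φ d).2 s = 0 := by
  have hs := (ch_spec hCGF hφ hd).1
  obtain ⟨hd1, he⟩ := att_unique (χ₀ := (ch φ d).2) hs.2.1 (att_ch hφ hd) hχ
  have hsne : s ≠ 1 := by
    rintro rfl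
    simp at hs1
  rw [he, DirichletCharacter.LFunction_changeLevel hd1 _ (Or.inr hsne)] at hz
  rcases mul_eq_zero.1 hz with h | h
  · exact h
  · exfalso
    rw [Finset.prod_eq_zero_iff] at h
    obtain ⟨p, hp, hp0⟩ := h
    have hpp := Nat.prime_of_mem_primeFactors hp
    have h1 : (ch φ d).2 (p : ZMod (ch φ d).1) * (p : ℂ) ^ (-s) = 1 := (sub_eq_zero.1 hp0).symm
    have h2 : ‖(ch φ d).2 (p : ZMod (ch φ d).1) * (p : ℂ) ^ (-s)‖ = 1 := by rw [h1, norm_one]
    rw [norm_mul, Complex.norm_natCast_cpow_of_pos hpp.pos, Complex.neg_re] at h2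
    have h3 := DirichletCharacter.norm_le_one (ch φ d).2 (p : ZMod (ch φ d).1)
    have h4 : (p : ℝ) ^ (-s.re) < 1 := by
      apply Real.rpow_lt_one_of_one_lt_of_neg
      · exact_mod_cast hpp.one_lt
      · linarith
    have h5 : 0 ≤ (p : ℝ) ^ (-s.re) := by positivity
    nlinarith [norm_nonneg ((ch φ d).2 (p : ZMod (ch φ d).1))]

theorem e_abs {φ : FD} (hφ : Fam φ) : φ.e.natAbs = 1 ∨ φ.e.natAbs = 2 := by
  rcases (LnkA.FGF φ hφ).he with h | h | h | h <;> rw [h] <;> simp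

/-- a bad integer comes from a bad member of a family -/
theorem bad_family {c c' R : ℝ} (hc' : 0 < c') (hc : c' ≤ c / 2) {n r m : ℕ} (hr : 1 ≤ r)
    (h4 : 4 * r ^ 4 ≤ n) (hn : n = r ^ 2 * m) (hm : Squarefree m) (hm1 : m ≠ 1)
    (hR : 0 ≤ R) (hb : BadZ c' R n) :
    ∃ (φ : FD) (d : ℕ), Fam φ ∧ d ∈ SFg φ ∧ n = r ^ 2 * (φ.e.natAbs * d) ∧ Bd φ c (R / 2) d := by
  obtain ⟨σ, hσ, N, hN, χ, hχ, s, hs0, hs1, hRs, hreg, hz⟩ := hb
  have hσ1 : IsUnit σ := by
    rcases hσ with rfl | rfl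
    · exact isUnit_one
    · exact isUnit_one.neg
  have hsm : Squarefree (σ * (m : ℤ)) := by
    rw [← Int.squarefree_natAbs, Int.natAbs_mul]
    have : σ.natAbs = 1 := by rcases hσ with rfl | rfl <;> rfl
    rw [this, one_mul]
    exact hm
  have hsm1 : σ * (m : ℤ) ≠ 1 := by
    rcases hσ with rfl | rfl
    · rw [one_mul]
      exact_mod_cast hm1
    · have : (0 : ℤ) ≤ m := Nat.cast_nonneg m
      intro h
      omega
  obtain ⟨φ, d, hφ, hd, hφd⟩ := fam_of (σ * (m : ℤ)) hsm hsm1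
  have hχ' : Attached (φ.e * (d : ℤ)) χ := by
    rw [← hφd]
    apply attached_sq (r := r) (by omega) _ hχ
    rw [hn]
    push_cast
    ring
  have hmd : m = φ.e.natAbs * d := by
    have h1 := congrArg Int.natAbs hφd
    rw [Int.natAbs_mul, Int.natAbs_mul, Int.natAbs_natCast, Int.natAbs_natCast] at h1
    have : σ.natAbs = 1 := by rcases hσ with rfl | rfl <;> rfl
    rw [this, one_mul] at h1
    exact h1
  refine ⟨φ, d, hφ, hd, by rw [hn, hmd], ?_⟩
  obtain ⟨hp, hq, hNz, hreal⟩ := ch_spec hCGF hφ hd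
  -- scales
  have hd0 : 0 < d := by
    rcases Nat.eq_zero_or_pos d with h | h
    · exfalso
      rw [h, mul_zero] at hmd
      rw [hmd] at hm
      exact not_squarefree_zero hm
    · exact h
  have he := e_abs hφ
  have hn' : n = r ^ 2 * (φ.e.natAbs * d) := by rw [hn, hmd]
  have hX1 := Nat.pow_log_le_self 2 (x := d) (by omega)
  have hX2 := Nat.lt_pow_succ_log_self (b := 2) (by norm_num) d
  rw [Nat.succ_eq_add_one] at hX2
  set X : ℕ := 2 ^ (Nat.log 2 d + 1) with hX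
  have hX3 : X ≤ 2 * d := by rw [hX, pow_succ]; omega
  have hr2 : 1 ≤ r ^ 2 := Nat.one_le_pow _ _ hr
  have hdn : d ≤ n := by
    rw [hn']
    have h1 : 1 * d ≤ φ.e.natAbs * d := Nat.mul_le_mul_right _ (by rcases he with h | h <;> omega)
    calc d = 1 * (1 * d) := by ring
      _ ≤ r ^ 2 * (φ.e.natAbs * d) := Nat.mul_le_mul hr2 h1
  have hn4 : 4 ≤ n := by
    have : 1 ≤ r ^ 4 := Nat.one_le_pow _ _ hr
    omega
  have hXn : X ≤ n ^ 2 := by
    calc X ≤ 2 * d := hX3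
      _ ≤ n * n := Nat.mul_le_mul (by omega) hdn
      _ = n ^ 2 := by ring
  have hred : r ^ 2 * φ.e.natAbs ≤ d := by
    by_contra hcon
    push Not at hcon
    have h1 : n < (r ^ 2 * φ.e.natAbs) * (r ^ 2 * φ.e.natAbs) := by
      have h2 : 0 < r ^ 2 * φ.e.natAbs := by
        have : 0 < φ.e.natAbs := by rcases he with h | h <;> omega
        positivity
      calc n = (r ^ 2 * φ.e.natAbs) * d := by rw [hn']; ring
        _ < _ := Nat.mul_lt_mul_of_pos_left hcon h2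
    have h3 : (r ^ 2 * φ.e.natAbs) * (r ^ 2 * φ.e.natAbs) ≤ 4 * r ^ 4 := by
      have h5 : φ.e.natAbs * φ.e.natAbs ≤ 4 := by rcases he with h | h <;> rw [h] <;> norm_num
      calc (r ^ 2 * φ.e.natAbs) * (r ^ 2 * φ.e.natAbs) = r ^ 4 * (φ.e.natAbs * φ.e.natAbs) := by
            ring
        _ ≤ r ^ 4 * 4 := Nat.mul_le_mul_left _ h5
        _ = 4 * r ^ 4 := by ring
    omega
  have hnX : n ≤ X ^ 2 := by
    calc n = (r ^ 2 * φ.e.natAbs) * d := by rw [hn']; ring
      _ ≤ d * d := Nat.mul_le_mul_right _ hred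
      _ ≤ X * X := Nat.mul_le_mul hX2.le hX2.le
      _ = X ^ 2 := by ring
  have hXp : (0 : ℝ) < X := by
    have : 0 < X := by omega
    exact_mod_cast this
  have hnp : (0 : ℝ) < n := by
    have : 0 < n := by omega
    exact_mod_cast this
  have hLn : 0 < Real.log n := Real.log_pos (by exact_mod_cast (by omega : 1 < n))
  have hLX : 0 < Real.log X := sc_pos d
  have l1 : Real.log X ≤ 2 * Real.log n := by
    calc Real.log X ≤ Real.log ((n : ℝ) ^ 2) := Real.log_le_log hXp (by exact_mod_cast hXn)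
      _ = 2 * Real.log n := by rw [Real.log_pow]; norm_num
  have l2 : Real.log n ≤ 2 * Real.log X := by
    calc Real.log n ≤ Real.log ((X : ℝ) ^ 2) := Real.log_le_log hnp (by exact_mod_cast hnX)
      _ = 2 * Real.log X := by rw [Real.log_pow]; norm_num
  refine ⟨(ch φ d).1, hNz, (ch φ d).2, hp.2.1, hp.2.2.1, hp.2.2.2, hq.1, hq.2, s, hs0, hs1, ?_,
    reg_scale hLX hLn l1 l2 hc' hc hreg, zero_transfer hφ hd hχ' hs0 hs1 hz⟩
  have h5 := mul_le_mul_of_nonneg_left l2 (abs_nonneg (s.re - 1 / 2))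
  show R / 2 ≤ |s.re - 1 / 2| * Real.log X
  linarith

end

end Pool.Agent.Q138.QZ
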