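import Pool.Agent.Q138.QZ.Count
import Pool.Agent.W169.RT.Tail
import Pool.Agent.W723.RT.ID
import Pool.Agent.W461.RT.Cm
import Pool.Agent.W469.RT.Jen
import Pool.Agent.W469.RT.Sup
import Pool.Agent.W108.RT.Ord
import Pool.Agent.W583.RT.Det
import Pool.Agent.W333.RT.Zb
import Pool.Agent.W973.QP.TG
import Pool.Agent.W215.QP.Fe
import Pool.Agent.W305.QP.Rel
import Pool.Agent.W372.QP.Cnt
import Pool.Agent.H423R2.RGL.FGF
import Pool.Agent.H423R2.RGL.CGF
import Pool.Agent.H423R2.RGL.DEN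
import Pool.Agent.H423R2.RGL.GRW

set_option autoImplicit false

/-!
Real zeros of quadratic L-functions, with multiplicity: the integers `n ≤ Y` with many zeros.
-/

namespace Pool.Agent.Q138.QZ

open Finset Filter Topology Pool.Agent.H306R2.RZ Pool.Agent.H306R2.RG
open Pool.Agent.H463R2.RGFIN (FS mem_FS r_bd ch ch_spec Ax Ax_fin Qr Qr_unique mem_le)
open Pool.Agent.H306R2.RG.LnkC (RPC CLS)
open Pool.Agent.TH560.QT (Attached att_unique att_ch fam_of fam_ne_one)
open Pool.Agent.W161.LF (hCGF)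
open Pool.Agent.W169.RT (MZ)

noncomputable section

theorem tail_mult : ∃ C c : ℝ, 0 < C ∧ 0 < c ∧ ∀ (X n : ℕ) (A : ℝ), 2 ≤ X → 0 ≤ A →
    A ≤ Real.log X / 4 → (RPC ∩ {p | p.1 ≤ X}).Finite ∧
      (((RPC ∩ {p | p.1 ≤ X}) ∩ {p | MZ X A n p}).ncard : ℝ) ≤
        C * Real.exp (C * A - c * n) * ((RPC ∩ {p | p.1 ≤ X}).ncard : ℝ) := by
  obtain ⟨-, hG⟩ := LnkD.GRW LnkC.CGF (LnkC.DEN (F8 1) ⟨1, Or.inl rfl, Or.inl rfl⟩)
  have hZB := Pool.Agent.W333.RT.zb
    (Pool.Agent.W469.RT.Sup.sup_of Pool.Agent.W461.RT.cm Pool.Agent.W723.RT.id_of)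
    Pool.Agent.W973.QP.tg Pool.Agent.W469.RT.Jen.jen Pool.Agent.W723.RT.id_of LnkA.FGF LnkC.CGF
    Pool.Agent.W215.QP.fe Pool.Agent.W305.QP.rel
  exact Pool.Agent.W169.RT.main_tail Pool.Agent.W372.QP.cnt_sum hZB
    Pool.Agent.W215.QP.fe Pool.Agent.W305.QP.rel Pool.Agent.W108.RT.ord
    (Pool.Agent.W583.RT.det Pool.Agent.W469.RT.Jen.jen) LnkC.CGF hG

theorem rpc_card (X : ℕ) : ((RPC ∩ {p | p.1 ≤ X}).ncard : ℝ) ≤ FS.card * ((X : ℝ) + 1) := by
  classical
  have hCLS := Pool.Agent.H306R2.RG.LnkC.CLS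
  have hcov : RPC ∩ {p | p.1 ≤ X} ⊆ ⋃ φ ∈ FS, ch φ '' Ax φ X := by
    rintro p ⟨hp, hpX⟩
    obtain ⟨φ, d, hφ, hA, hs, hN, hval⟩ := hCLS p.1 hp.1 p.2 hp.2.1 hp.2.2.1 hp.2.2.2
    have hd : d ∈ SFg φ := ⟨hA, hs⟩
    have hQ : Qr φ d p := ⟨hN, hval⟩
    have hch := ch_spec hCGF hφ hd
    have he : p = ch φ d := Qr_unique hp.1 hQ hch.2.1
    simp only [Set.mem_iUnion]
    refine ⟨φ, (mem_FS φ).2 hφ, d, ⟨hd, ?_⟩, he.symm⟩
    have hpX' : p.1 ≤ X := hpX
    rw [hN] at hpX'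
    exact (mem_le hφ).2 hpX'
  have hfinU : (⋃ φ ∈ FS, ch φ '' Ax φ X).Finite :=
    Set.Finite.biUnion FS.finite_toSet fun φ _ => (Ax_fin φ X).image _
  have h1 : (RPC ∩ {p | p.1 ≤ X}).ncard ≤ (⋃ φ ∈ FS, ch φ '' Ax φ X).ncard :=
    Set.ncard_le_ncard hcov hfinU
  have h2 : (⋃ φ ∈ FS, ch φ '' Ax φ X).ncard ≤ ∑ φ ∈ FS, (Ax φ X).ncard := by
    have : (⋃ φ ∈ FS, ch φ '' Ax φ X) =
        ((FS.biUnion fun φ => (Ax_fin φ X).toFinset.image (ch φ) : Finset _) : Set _) := by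
      ext p
      simp
    rw [this, Set.ncard_coe_finset]
    refine Finset.card_biUnion_le.trans (Finset.sum_le_sum fun φ _ => ?_)
    refine Finset.card_image_le.trans ?_
    rw [Set.ncard_eq_toFinset_card _ (Ax_fin φ X)]
  have h3 : ∀ φ ∈ FS, (Ax φ X).ncard ≤ X + 1 := by
    intro φ _
    have h4 : Ax φ X ⊆ (Finset.range (X + 1) : Set ℕ) := by
      rintro d ⟨-, hd⟩
      have h5 : d ≤ X / φ.r := hd
      have h6 : X / φ.r ≤ X := Nat.div_le_self _ _
      simp only [Finset.coe_range, Set.mem_Iio]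
      omega
    have h5 := Set.ncard_le_ncard h4 (Finset.finite_toSet _)
    rwa [Set.ncard_coe_finset, Finset.card_range] at h5
  have h4 : (RPC ∩ {p | p.1 ≤ X}).ncard ≤ FS.card * (X + 1) := by
    refine h1.trans (h2.trans ((Finset.sum_le_sum h3).trans (le_of_eq ?_)))
    rw [Finset.sum_const, smul_eq_mul]
  exact_mod_cast h4

/-- a primitive character attached to `n` or to `-n` has at least `D R` zeros, with multiplicity,
in `(0,1)` or at distance at most `r R / log n` from `1/2` -/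
def BadM (D r R : ℝ) (n : ℕ) : Prop := ∃ σ : ℤ, (σ = 1 ∨ σ = -1) ∧
  ∃ (N : ℕ) (_ : NeZero N) (χ : DirichletCharacter ℂ N), χ.IsPrimitive ∧
    Attached (σ * (n : ℤ)) χ ∧ ∃ S : Finset ℂ,
      (∀ s ∈ S, (s.im = 0 ∧ 0 < s.re ∧ s.re < 1) ∨ ‖s - 1 / 2‖ ≤ r * R / Real.log n) ∧
      D * R ≤ ((∑ s ∈ S, analyticOrderNatAt (DirichletCharacter.LFunction χ) s : ℕ) : ℝ)

/-- the condition for a member of a family -/
def BdM (D r R : ℝ) (φ : FD) (d : ℕ) : Prop :=
  MZ ((2 ^ (Nat.log 2 d + 4) : ℕ) : ℝ) (2 * r * R) ⌈D * R⌉₊ (ch φ d)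

theorem prim_eq {n : ℤ} {N₀ N : ℕ} [NeZero N₀] [NeZero N] {χ₀ : DirichletCharacter ℂ N₀}
    {χ : DirichletCharacter ℂ N} (h0 : χ₀.IsPrimitive) (h1 : χ.IsPrimitive)
    (hχ₀ : Attached n χ₀) (hχ : Attached n χ) :
    (⟨N, χ⟩ : Σ N : ℕ, DirichletCharacter ℂ N) = ⟨N₀, χ₀⟩ := by
  obtain ⟨hd, he⟩ := att_unique h0 hχ₀ hχ
  have h2 : χ.conductor = N₀ := by
    rw [he, DirichletCharacter.conductor_changeLevel χ₀ hd]
    exact h0
  have h3 : N = N₀ := by
    have h4 : χ.conductor = N := h1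
    omega
  subst h3
  rw [he, DirichletCharacter.changeLevel_self]

theorem attached_of_sq {n m : ℤ} {r : ℕ} (hr : r ≠ 0) (h : n = (r : ℤ) ^ 2 * m) {N : ℕ}
    {χ : DirichletCharacter ℂ N} (hχ : Attached m χ) : Attached n χ := by
  obtain ⟨B, hB⟩ := hχ
  refine ⟨max B (r + 1), fun p hp hpB => ?_⟩
  have h1 : B ≤ p := (le_max_left _ _).trans hpB
  have h2 : r + 1 ≤ p := (le_max_right _ _).trans hpB
  rw [hB p hp h1, h, jacobiSym.mul_left, jacobiSym.pow_left, jacobiSym.sq_one, one_mul]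
  have hc : Nat.Coprime r p := by
    rw [Nat.coprime_comm, hp.coprime_iff_not_dvd]
    intro hd
    have := Nat.le_of_dvd (Nat.pos_of_ne_zero hr) hd
    omega
  rw [Int.gcd_natCast_natCast]
  exact hc

theorem red_mult {D r R : ℝ} (hr : 0 ≤ r) (hR : 0 ≤ R) (n q m : ℕ) (hq : 1 ≤ q) (h16 : 16 ≤ n)
    (hn : n = q ^ 2 * m) (hm : Squarefree m) (hm1 : m ≠ 1) (hb : BadM D r R n) :
    ∃ (φ : FD) (d : ℕ), Fam φ ∧ d ∈ SFg φ ∧ n = q ^ 2 * (φ.e.natAbs * d) ∧ BdM D r R φ d := by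
  obtain ⟨σ, hσ, N, hN, χ, hpr, hχ, S, hS, hsum⟩ := hb
  have hsm : Squarefree (σ * (m : ℤ)) := by
    rw [← Int.squarefree_natAbs, Int.natAbs_mul]
    have : σ.natAbs = 1 := by rcases hσ with rfl | rfl <;> rfl
    rw [this, one_mul]
    exact hm
  have hsm1 : σ * (m : ℤ) ≠ 1 := by
    rcases hσ with rfl | rfl
    · rw [one_mul]
      exact_mod_cast hm1
    · have : (0 : ℤ) ≤ m := Nat.cast_nonneg m
      intro h
      omega
  obtain ⟨φ, d, hφ, hd, hφd⟩ := fam_of (σ * (m : ℤ)) hsm hsm1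
  have hχ' : Attached (φ.e * (d : ℤ)) χ := by
    rw [← hφd]
    apply attached_sq (r := q) (by omega) _ hχ
    rw [hn]
    push_cast
    ring
  have hmd : m = φ.e.natAbs * d := by
    have h1 := congrArg Int.natAbs hφd
    rw [Int.natAbs_mul, Int.natAbs_mul, Int.natAbs_natCast, Int.natAbs_natCast] at h1
    have : σ.natAbs = 1 := by rcases hσ with rfl | rfl <;> rfl
    rw [this, one_mul] at h1
    exact h1
  have hn' : n = q ^ 2 * (φ.e.natAbs * d) := by rw [hn, hmd]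
  refine ⟨φ, d, hφ, hd, hn', ?_⟩
  obtain ⟨hp, hQ, hNz, hreal⟩ := ch_spec hCGF hφ hd
  have heq : (⟨N, χ⟩ : Σ N : ℕ, DirichletCharacter ℂ N) = ch φ d :=
    prim_eq (χ₀ := (ch φ d).2) hp.2.1 hpr (att_ch hφ hd) hχ'
  have he := e_abs hφ
  have hd0 : 0 < d := by
    rcases Nat.eq_zero_or_pos d with h | h
    · exfalso
      rw [h, mul_zero] at hmd
      rw [hmd] at hm
      exact not_squarefree_zero hm
    · exact h
  have hdn : d ≤ n := by
    rw [hn']
    have h1 : 1 * d ≤ φ.e.natAbs * d := Nat.mul_le_mul_right _ (by rcases he with h | h <;> omega)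
    have hr2 : 1 ≤ q ^ 2 := Nat.one_le_pow _ _ hq
    calc d = 1 * (1 * d) := by ring
      _ ≤ q ^ 2 * (φ.e.natAbs * d) := Nat.mul_le_mul hr2 h1
  have hX1 := Nat.pow_log_le_self 2 (x := d) (by omega)
  have hXn : 2 ^ (Nat.log 2 d + 4) ≤ n ^ 2 := by
    calc 2 ^ (Nat.log 2 d + 4) = 16 * 2 ^ (Nat.log 2 d) := by rw [pow_add]; ring
      _ ≤ n * n := Nat.mul_le_mul h16 (hX1.trans hdn)
      _ = n ^ 2 := by ring
  set X : ℕ := 2 ^ (Nat.log 2 d + 4) with hX
  have hXp : (0 : ℝ) < X := by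
    have : 0 < X := by rw [hX]; positivity
    exact_mod_cast this
  have hX16 : 16 ≤ X := by
    rw [hX, pow_add]
    have : 1 ≤ 2 ^ (Nat.log 2 d) := Nat.one_le_two_pow
    omega
  have hLX : 0 < Real.log X := Real.log_pos (by exact_mod_cast (by omega : 1 < X))
  have hLn : 0 < Real.log n := Real.log_pos (by exact_mod_cast (by omega : 1 < n))
  have l1 : Real.log X ≤ 2 * Real.log n := by
    calc Real.log X ≤ Real.log ((n : ℝ) ^ 2) := Real.log_le_log hXp (by exact_mod_cast hXn)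
      _ = 2 * Real.log n := by rw [Real.log_pow]; norm_num
  unfold BdM
  rw [← heq]
  refine ⟨hN, S, fun s hs => ?_, ?_⟩
  · rcases hS s hs with h | h
    · exact Or.inl h
    · right
      refine h.trans ?_
      show r * R / Real.log n ≤ 2 * r * R / Real.log X
      rw [div_le_div_iff₀ hLn hLX]
      have h1 : 0 ≤ r * R := by positivity
      nlinarith
  · apply Nat.ceil_le.2
    exact hsum

theorem fam_mult : ∃ C c : ℝ, 0 < C ∧ 0 < c ∧ ∀ D r R : ℝ, 0 ≤ r → 0 ≤ R → ∀ N : ℕ, 1 ≤ N →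
    8 * r * R ≤ Real.log (8 * N) →
    ∀ φ, Fam φ → ∀ T : ℕ, ∀ s : Finset ℕ,
      (∀ d ∈ s, d ∈ SFg φ ∧ N ≤ d ∧ d ≤ T ∧ BdM D r R φ d) →
      (s.card : ℝ) ≤ C * Real.exp (C * (2 * r * R) - c * (D * R)) * T := by
  classical
  obtain ⟨C, c, hC, hc, h⟩ := tail_mult
  refine ⟨64 * FS.card * C + C, c, by positivity, hc, ?_⟩
  intro D r R hr hR N hN1 hrN φ hφ T s hs
  have hrR : 0 ≤ 2 * r * R := by positivity
  have key := dyadic (P := fun d => d ∈ SFg φ ∧ N ≤ d ∧ BdM D r R φ d)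
    (E := 32 * FS.card * C * Real.exp (C * (2 * r * R) - c * (D * R))) (by positivity)
    (fun j s' hs' => by
      rcases s'.eq_empty_or_nonempty with h0 | h0
      · rw [h0]
        simp only [Finset.card_empty, Nat.cast_zero]
        positivity
      · set X : ℕ := 2 ^ (j + 4) with hX
        have hXN : 8 * N ≤ X := by
          obtain ⟨d, hd⟩ := h0
          have h2 := hs' d hd
          have h3 : X = 8 * 2 ^ (j + 1) := by rw [hX, pow_add, pow_add]; ring
          omega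
        have hX2 : 2 ≤ X := by omega
        have hA : 2 * r * R ≤ Real.log X / 4 := by
          have h1 : Real.log (8 * (N : ℝ)) ≤ Real.log X := by
            apply Real.log_le_log
            · have : (1 : ℝ) ≤ N := by exact_mod_cast hN1
              linarith
            · exact_mod_cast hXN
          linarith
        obtain ⟨hfin, hb⟩ := h X ⌈D * R⌉₊ (2 * r * R) hX2 hrR hA
        -- the injection
        have hinj : (s'.card : ℝ) ≤
            (((RPC ∩ {p | p.1 ≤ X}) ∩ {p | MZ X (2 * r * R) ⌈D * R⌉₊ p}).ncard : ℝ) := by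
          have h1 : ((s'.image (ch φ) : Finset _) : Set _) ⊆
              (RPC ∩ {p | p.1 ≤ X}) ∩ {p | MZ X (2 * r * R) ⌈D * R⌉₊ p} := by
            intro p hp
            rw [Finset.coe_image] at hp
            obtain ⟨d, hd, rfl⟩ := hp
            obtain ⟨⟨g1, g2, g3⟩, g4, g5, g6⟩ := hs' d hd
            obtain ⟨hp, hQ, -⟩ := ch_spec hCGF hφ g1
            refine ⟨⟨hp, ?_⟩, ?_⟩
            · show (ch φ d).1 ≤ X
              rw [hQ.1]
              have h8 := (r_bd hφ).2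
              calc φ.r * d ≤ 8 * 2 ^ (j + 1) := Nat.mul_le_mul h8 g5.le
                _ = X := by rw [hX, pow_add, pow_add]; ring
            · unfold BdM at g3
              rw [g6] at g3
              exact g3
          have h2 := Set.ncard_le_ncard h1 (hfin.subset Set.inter_subset_left)
          rw [Set.ncard_coe_finset, Finset.card_image_of_injOn] at h2
          · exact_mod_cast h2
          · intro d1 hd1 d2 hd2 he
            have q1 := (ch_spec hCGF hφ (hs' d1 hd1).1.1).2.1.1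
            have q2 := (ch_spec hCGF hφ (hs' d2 hd2).1.1).2.1.1
            have q3 : φ.r * d1 = φ.r * d2 := by
              rw [← q1, ← q2]
              exact congrArg Sigma.fst he
            exact Nat.eq_of_mul_eq_mul_left (by have := (r_bd hφ).1; omega) q3
        refine hinj.trans (hb.trans ?_)
        have h1 := rpc_card X
        have h2 : ((X : ℝ) + 1) ≤ 32 * (2 : ℝ) ^ j := by
          have h3 : (X : ℝ) = 16 * (2 : ℝ) ^ j := by
            rw [hX]
            push_cast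
            rw [pow_add]
            ring
          have h4 : (1 : ℝ) ≤ 2 ^ j := one_le_pow₀ (by norm_num)
          rw [h3]
          linarith
        have h3 : Real.exp (C * (2 * r * R) - c * (⌈D * R⌉₊ : ℝ)) ≤
            Real.exp (C * (2 * r * R) - c * (D * R)) := by
          apply Real.exp_le_exp.2
          have := mul_le_mul_of_nonneg_left (Nat.le_ceil (D * R)) hc.le
          linarith
        calc C * Real.exp (C * (2 * r * R) - c * (⌈D * R⌉₊ : ℝ)) *
              ((RPC ∩ {p | p.1 ≤ X}).ncard : ℝ)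
            ≤ C * Real.exp (C * (2 * r * R) - c * (D * R)) * (FS.card * (32 * (2 : ℝ) ^ j)) := by
              gcongr
              exact h1.trans (mul_le_mul_of_nonneg_left h2 (Nat.cast_nonneg _))
          _ = _ := by ring) T s (fun d hd => by
      obtain ⟨g1, g2, g3, g4⟩ := hs d hd
      exact ⟨by omega, g3, g1, g2, g4⟩)
  refine key.trans ?_
  have h0 : 0 ≤ Real.exp (C * (2 * r * R) - c * (D * R)) * T := by positivity
  have h1 : Real.exp (C * (2 * r * R) - c * (D * R)) ≤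
      Real.exp ((64 * FS.card * C + C) * (2 * r * R) - c * (D * R)) := by
    apply Real.exp_le_exp.2
    have h2 : 0 ≤ 64 * (FS.card : ℝ) * C := by positivity
    nlinarith
  calc 2 * (32 * (FS.card : ℝ) * C * Real.exp (C * (2 * r * R) - c * (D * R))) * T
      = (64 * FS.card * C) * Real.exp (C * (2 * r * R) - c * (D * R)) * T := by ring
    _ ≤ (64 * FS.card * C + C) *
        Real.exp ((64 * FS.card * C + C) * (2 * r * R) - c * (D * R)) * T := by
        gcongr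
        linarith

/-- the number of integers with many zeros -/
theorem count_mult : ∃ C c : ℝ, 0 < C ∧ 0 < c ∧ ∀ D r R : ℝ, 0 ≤ r → 0 ≤ R → ∀ Y K : ℕ,
    2 ^ 16 ≤ Y → 16 * r * R ≤ Real.log Y → 1 ≤ K → K ^ 16 ≤ Y → ∀ s : Finset ℕ,
    (∀ n ∈ s, 0 < n ∧ n ≤ Y ∧ BadM D r R n) →
    (s.card : ℝ) ≤ Y / K + (Y : ℝ) ^ (3 / 4 : ℝ) +
      C * Y * Real.exp (C * (2 * r * R) - c * (D * R)) := by
  obtain ⟨C, c, hC, hc, h⟩ := fam_mult
  refine ⟨2 * FS.card * C + C, c, by positivity, hc, ?_⟩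
  intro D r R hr hR Y K hY hrY hK hKY s hs
  have hY1 : (1 : ℝ) ≤ Y := by
    have : 1 ≤ Y := le_trans (by norm_num) hY
    exact_mod_cast this
  set z : ℝ := (Y : ℝ) ^ (5 / 8 : ℝ) with hz
  have hz2 : 2 ≤ z := by
    have h1 : ((2 : ℝ) ^ 16) ^ (5 / 8 : ℝ) ≤ z := by
      apply Real.rpow_le_rpow (by norm_num) _ (by norm_num)
      exact_mod_cast hY
    refine le_trans ?_ h1
    rw [← Real.rpow_natCast, ← Real.rpow_mul (by norm_num)]
    norm_num
  have hN1 : 1 ≤ ⌊z / 2⌋₊ := Nat.le_floor (by push_cast; linarith)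
  have hN2 : 2 * ((⌊z / 2⌋₊ : ℕ) : ℝ) ≤ z := by
    have := Nat.floor_le (by positivity : 0 ≤ z / 2)
    linarith
  have hN3 : z ≤ 8 * ((⌊z / 2⌋₊ : ℕ) : ℝ) := by
    have h1 := Nat.lt_floor_add_one (z / 2)
    have h2 : (1 : ℝ) ≤ (⌊z / 2⌋₊ : ℕ) := by exact_mod_cast hN1
    linarith
  have hrN : 8 * r * R ≤ Real.log (8 * ((⌊z / 2⌋₊ : ℕ) : ℝ)) := by
    have h1 : Real.log z ≤ Real.log (8 * ((⌊z / 2⌋₊ : ℕ) : ℝ)) :=
      Real.log_le_log (by positivity) hN3
    have h2 : Real.log z = 5 / 8 * Real.log Y := by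
      rw [hz, Real.log_rpow (by linarith)]
    have h3 : 0 ≤ Real.log Y := Real.log_nonneg hY1
    linarith
  have hg := count_gen (BZ := BadM D r R) (BF := fun φ d => BdM D r R φ d)
    (E := C * Real.exp (C * (2 * r * R) - c * (D * R))) (by positivity) (N := ⌊z / 2⌋₊)
    (fun n q m hq h16 _ hn hm hm1 hb => red_mult hr hR n q m hq h16 hn hm hm1 hb)
    (fun φ hφ T s hs => h D r R hr hR ⌊z / 2⌋₊ hN1 hrN φ hφ T s hs) hY hN2 hK hKY s hs
  refine hg.trans ?_
  have hrR : 0 ≤ 2 * r * R := by positivity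
  have h1 : Real.exp (C * (2 * r * R) - c * (D * R)) ≤
      Real.exp ((2 * FS.card * C + C) * (2 * r * R) - c * (D * R)) := by
    apply Real.exp_le_exp.2
    have h2 : 0 ≤ 2 * (FS.card : ℝ) * C := by positivity
    nlinarith
  have h2 : 2 * (FS.card : ℝ) * (C * Real.exp (C * (2 * r * R) - c * (D * R))) * Y ≤
      (2 * FS.card * C + C) * Y *
        Real.exp ((2 * FS.card * C + C) * (2 * r * R) - c * (D * R)) := by
    calc 2 * (FS.card : ℝ) * (C * Real.exp (C * (2 * r * R) - c * (D * R))) * Y =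
        (2 * FS.card * C) * Y * Real.exp (C * (2 * r * R) - c * (D * R)) := by ring
      _ ≤ _ := by
        gcongr
        linarith
  linarith

end

end Pool.Agent.Q138.QZ
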